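import Pool.Agent.PFJ.Stmts

/-!
PFJ row BLM (MP_e54c4c_gt): limits of boxes.
-/

set_option autoImplicit false

open Matrix Filter Topology

namespace Pool.Agent.PFJ.H39

open Pool.Agent.PFS Pool.Agent.PFJ

/-- simultaneous subsequences for finitely many sequences of subspaces -/
theorem lsc_fin (hLsc : LscStmt) (hLsf : LsfStmt) {n : ℕ} {ι : Type} [DecidableEq ι]
    (F : ι → ℕ → Submodule ℝ (V n)) (s : Finset ι) :
    ∃ (φ : ℕ → ℕ) (L' : ι → Submodule ℝ (V n)), StrictMono φ ∧
      ∀ a ∈ s, LimS (fun m => F a (φ m)) (L' a) ∧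
        ∀ m, Module.finrank ℝ (F a (φ m)) = Module.finrank ℝ (L' a) := by
  induction s using Finset.induction_on with
  | empty => exact ⟨id, fun _ => ⊥, strictMono_id, fun a ha => absurd ha (Finset.notMem_empty a)⟩
  | insert a0 s ha0 ih =>
    obtain ⟨φ, L', hφ, hL'⟩ := ih
    obtain ⟨ψ, N, hψ, hN, hd⟩ := hLsc n (fun m => F a0 (φ m))
    refine ⟨φ ∘ ψ, Function.update L' a0 N, hφ.comp hψ, ?_⟩
    intro a ha
    by_cases h : a = a0
    · subst h
      rw [Function.update_self]
      exact ⟨hN, hd⟩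
    · rw [Function.update_of_ne h]
      have ha' : a ∈ s := by
        rcases Finset.mem_insert.1 ha with h1 | h1
        · exact absurd h1 h
        · exact h1
      exact ⟨(hLsf n).1 _ _ ψ (hL' a ha').1 hψ, fun m => (hL' a ha').2 (ψ m)⟩

theorem blm (hLsc : LscStmt) (hLsf : LsfStmt) (hBfa : BfaStmt) : BlmStmt := by
  intro n C Γ h K hK L x β p hbox hp hlim
  have hP : PCone C := h.toPCone
  obtain ⟨φ0, w, hφ0, hw0, hsum, hpes⟩ := Pool.Agent.PFS.H37.lpsF n C Γ h (Fin K)
    (by rw [Fintype.card_fin]; omega) x p (fun m => (hbox m).pes) hp hlim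
  obtain ⟨ψ, L1, hψ, hL1⟩ := lsc_fin hLsc hLsf
    (fun (o : Option (Fin K)) (m : ℕ) => match o with
      | none => ⨆ a, L (φ0 m) a
      | some a => L (φ0 m) a) Finset.univ
  obtain ⟨φ, hφdef⟩ : ∃ φ : ℕ → ℕ, φ = fun m => φ0 (ψ m) := ⟨_, rfl⟩
  have hφ : StrictMono φ := by rw [hφdef]; exact hφ0.comp hψ
  obtain ⟨Lo, hLodef⟩ : ∃ Lo : Fin K → Submodule ℝ (V n), Lo = fun a => L1 (some a) := ⟨_, rfl⟩
  obtain ⟨N, hNdef⟩ : ∃ N : Submodule ℝ (V n), N = L1 none := ⟨_, rfl⟩
  have hLlim : ∀ a, LimS (fun m => L (φ m) a) (Lo a) := by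
    intro a
    rw [hφdef, hLodef]
    exact (hL1 (some a) (Finset.mem_univ _)).1
  have hLdim : ∀ a m, Module.finrank ℝ (L (φ m) a) = Module.finrank ℝ (Lo a) := by
    intro a
    rw [hφdef, hLodef]
    exact (hL1 (some a) (Finset.mem_univ _)).2
  have hNlim : LimS (fun m => ⨆ a, L (φ m) a) N := by
    rw [hφdef, hNdef]
    exact (hL1 none (Finset.mem_univ _)).1
  have hNdim : ∀ m, Module.finrank ℝ ↥(⨆ a, L (φ m) a) = Module.finrank ℝ N := by
    rw [hφdef, hNdef]
    exact (hL1 none (Finset.mem_univ _)).2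
  have hw : ∀ i, Tendsto (fun m => x (φ m) i) atTop (𝓝 (w i)) := by
    intro i
    rw [hφdef]
    exact (hw0 i).comp hψ.tendsto_atTop
  have hbx : ∀ m, Box C Γ (L (φ m)) (x (φ m)) β := fun m => hbox (φ m)
  clear hφdef hLodef hNdef hL1
  -- units
  obtain ⟨um, hum⟩ : ∃ um : ℕ → Fin K → V n, um = fun m a =>
    ∑ i ∈ Finset.univ.filter (fun i => β i = a), x (φ m) i := ⟨_, rfl⟩
  obtain ⟨u, hu⟩ : ∃ u : Fin K → V n, u = fun a =>
    ∑ i ∈ Finset.univ.filter (fun i => β i = a), w i := ⟨_, rfl⟩
  have humlim : ∀ a, Tendsto (fun m => um m a) atTop (𝓝 (u a)) := by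
    intro a
    rw [hum, hu]
    exact tendsto_finsetSum _ fun i _ => hw i
  have humL : ∀ m a, um m a ∈ L (φ m) a := by
    intro m a
    rw [hum]
    refine Submodule.sum_mem _ fun i hi => ?_
    have h1 := (hbx m).mem i
    rw [(Finset.mem_filter.1 hi).2] at h1
    exact h1
  have husum : ∑ a, u a = p := by
    rw [hu, ← hsum]
    exact Finset.sum_fiberwise _ _ _
  have humsum : ∀ m, ∑ a, um m a = ∑ i, x (φ m) i := by
    intro m
    rw [hum]
    exact Finset.sum_fiberwise _ _ _
  have humsumlim : Tendsto (fun m => ∑ a, um m a) atTop (𝓝 p) := by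
    rw [← husum]
    exact tendsto_finsetSum _ fun a _ => humlim a
  -- comp
  have hcomp : ∀ y : Fin K → V n, (∀ a, y a ∈ Lo a) → ∑ a, y a ∈ closure C →
      ∀ a, y a ∈ closure C := by
    intro y hy hys a
    have hch : ∀ b, ∃ yb : ℕ → V n, (∀ m, yb m ∈ L (φ m) b) ∧ Tendsto yb atTop (𝓝 (y b)) :=
      fun b => (hLlim b).1 (y b) (hy b)
    choose ym hymL hymlim using hch
    have heps : ∀ ε : ℝ, 0 < ε → y a + ε • u a ∈ closure C := by
      intro ε hε
      have hmemC : ∑ b, (y b + ε • u b) ∈ C := by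
        rw [Finset.sum_add_distrib, ← Finset.smul_sum, husum]
        exact hP.cl_add' hys (hP.smul _ hp _ hε)
      have hl : Tendsto (fun m => ∑ b, (ym b m + ε • um m b)) atTop
          (𝓝 (∑ b, (y b + ε • u b))) :=
        tendsto_finsetSum _ fun b _ => (hymlim b).add ((humlim b).const_smul ε)
      have hev := hl.eventually (hP.isOpen.mem_nhds hmemC)
      refine isClosed_closure.mem_of_tendsto ((hymlim a).add ((humlim a).const_smul ε)) ?_
      filter_upwards [hev] with m hm
      exact (hbx m).comp (fun b => ym b m + ε • um m b)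
        (fun b => Submodule.add_mem _ (hymL b m) (Submodule.smul_mem _ _ (humL m b)))
        (subset_closure hm) a
    have hl : Tendsto (fun m : ℕ => y a + (1 / ((m : ℝ) + 1)) • u a) atTop
        (𝓝 (y a + (0 : ℝ) • u a)) :=
      tendsto_const_nhds.add (tendsto_one_div_add_atTop_nhds_zero_nat.smul_const _)
    rw [zero_smul, add_zero] at hl
    exact isClosed_closure.mem_of_tendsto hl
      (Eventually.of_forall fun m => heps _ (by positivity))
  -- the supremum
  have hNeq : N = ⨆ a, Lo a := by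
    apply le_antisymm
    · intro x0 hx0
      obtain ⟨xm, hxmN, hxmlim⟩ := hNlim.1 x0 hx0
      obtain ⟨M1, hM1, hm1⟩ := hP.absorb hp x0
      obtain ⟨M2, hM2, hm2⟩ := hP.absorb hp (-x0)
      have hdec : ∀ m, ∃ y : Fin K → V n, (∀ a, y a ∈ L (φ m) a) ∧ ∑ a, y a = xm m := fun m =>
        (hBfa n C Γ hP K (L (φ m)) (x (φ m)) β (hbx m)).2.2.2.1 (xm m) (hxmN m)
      choose y hyL hysum using hdec
      obtain ⟨M, hMdef⟩ : ∃ M : ℝ, M = M1 + M2 := ⟨_, rfl⟩
      have hMpos : 0 < M := by rw [hMdef]; linarith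
      have hA : M • p - x0 ∈ C := by
        have e : M • p - x0 = (M1 • p - x0) + M2 • p := by
          rw [hMdef, add_smul]; abel
        rw [e]
        exact hP.add_cl hm1 (subset_closure (hP.smul _ hp _ hM2))
      have hB : M • p + x0 ∈ C := by
        have e : M • p + x0 = (M2 • p - -x0) + M1 • p := by
          rw [hMdef, add_smul]; abel
        rw [e]
        exact hP.add_cl hm2 (subset_closure (hP.smul _ hp _ hM1))
      have evA := ((humsumlim.const_smul M).sub hxmlim).eventually (hP.isOpen.mem_nhds hA)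
      have evB := ((humsumlim.const_smul M).add hxmlim).eventually (hP.isOpen.mem_nhds hB)
      obtain ⟨m0, hm0⟩ := Filter.eventually_atTop.1 (evA.and evB)
      have hcA : ∀ m, m0 ≤ m → ∀ a, M • um m a - y m a ∈ closure C := by
        intro m hm
        refine (hbx m).comp (fun a => M • um m a - y m a)
          (fun a => Submodule.sub_mem _ (Submodule.smul_mem _ _ (humL m a)) (hyL m a)) ?_
        rw [Finset.sum_sub_distrib, ← Finset.smul_sum, hysum]
        exact subset_closure (hm0 m hm).1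
      have hcB : ∀ m, m0 ≤ m → ∀ a, M • um m a + y m a ∈ closure C := by
        intro m hm
        refine (hbx m).comp (fun a => M • um m a + y m a)
          (fun a => Submodule.add_mem _ (Submodule.smul_mem _ _ (humL m a)) (hyL m a)) ?_
        rw [Finset.sum_add_distrib, ← Finset.smul_sum, hysum]
        exact subset_closure (hm0 m hm).2
      obtain ⟨B, hBpos, hnorm⟩ := hP.normal
      -- bound for um
      have hub : ∃ R : ℝ, 0 ≤ R ∧ ∀ m a, ‖um m a‖ ≤ R := by
        have h1 : ∀ a, ∃ R : ℝ, ∀ m, ‖um m a‖ ≤ R := by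
          intro a
          obtain ⟨R, hR⟩ := (humlim a).norm.bddAbove_range
          exact ⟨R, fun m => hR ⟨m, rfl⟩⟩
        choose R hR using h1
        refine ⟨∑ a, |R a|, Finset.sum_nonneg fun a _ => abs_nonneg _, fun m a => ?_⟩
        exact ((hR a m).trans (le_abs_self _)).trans
          (Finset.single_le_sum (f := fun a => |R a|) (fun b _ => abs_nonneg _)
            (Finset.mem_univ a))
      obtain ⟨R, hR0, hR⟩ := hub
      have hyb : ∀ m, m0 ≤ m → ∀ a, ‖y m a‖ ≤ M * R + B * (2 * M * R) := by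
        intro m hm a
        have h1 := hnorm (M • um m a - y m a) ((2 * M) • um m a) (hcA m hm a) (by
          have e : (2 * M) • um m a - (M • um m a - y m a) = M • um m a + y m a := by
            rw [two_mul, add_smul]; abel
          rw [e]
          exact hcB m hm a)
        have h2 : ‖y m a‖ ≤ ‖M • um m a‖ + ‖M • um m a - y m a‖ := by
          have e : y m a = M • um m a - (M • um m a - y m a) := by abel
          calc ‖y m a‖ = ‖M • um m a - (M • um m a - y m a)‖ := by rw [← e]
            _ ≤ _ := norm_sub_le _ _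
        have h3 : ‖M • um m a‖ ≤ M * R := by
          rw [norm_smul, Real.norm_of_nonneg hMpos.le]
          exact mul_le_mul_of_nonneg_left (hR m a) hMpos.le
        have h4 : ‖(2 * M) • um m a‖ ≤ 2 * M * R := by
          rw [norm_smul, Real.norm_of_nonneg (by positivity)]
          exact mul_le_mul_of_nonneg_left (hR m a) (by positivity)
        calc ‖y m a‖ ≤ ‖M • um m a‖ + ‖M • um m a - y m a‖ := h2
          _ ≤ M * R + B * ‖(2 * M) • um m a‖ := add_le_add h3 h1
          _ ≤ M * R + B * (2 * M * R) := by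
            have := mul_le_mul_of_nonneg_left h4 hBpos.le
            linarith
      obtain ⟨z, -, θ, hθ, hz⟩ := tendsto_subseq_of_bounded
        (Metric.isBounded_closedBall (x := (0 : Fin K → V n)) (r := M * R + B * (2 * M * R)))
        (x := fun m => y (m + m0))
        (fun m => mem_closedBall_zero_iff.2 ((pi_norm_le_iff_of_nonneg (by positivity)).2
          fun a => hyb (m + m0) (Nat.le_add_left _ _) a))
      have hχ : StrictMono (fun m => θ m + m0) := fun a b hab => Nat.add_lt_add_right (hθ hab) m0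
      have hza : ∀ a, Tendsto (fun m => y (θ m + m0) a) atTop (𝓝 (z a)) := fun a =>
        (tendsto_pi_nhds.1 hz) a
      have hzL : ∀ a, z a ∈ Lo a := fun a =>
        (hLlim a).2 (fun m => θ m + m0) (fun m => y (θ m + m0) a) (z a) hχ
          (fun m => hyL (θ m + m0) a) (hza a)
      have hzs : ∑ a, z a = x0 := by
        have t1 : Tendsto (fun m => ∑ a, y (θ m + m0) a) atTop (𝓝 (∑ a, z a)) :=
          tendsto_finsetSum _ fun a _ => hza a
        have t2 : Tendsto (fun m => ∑ a, y (θ m + m0) a) atTop (𝓝 x0) := by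
          have := hxmlim.comp hχ.tendsto_atTop
          refine this.congr fun m => ?_
          exact (hysum (θ m + m0)).symm
        exact tendsto_nhds_unique t1 t2
      rw [← hzs]
      exact Submodule.sum_mem _ fun a _ => Submodule.mem_iSup_of_mem a (hzL a)
    · refine iSup_le fun a => ?_
      exact (hLsf n).2.2.2.2 _ _ _ _ (hLlim a) hNlim fun m => le_iSup (fun a => L (φ m) a) a
  have hwne : ∀ i, w i ≠ 0 := fun i => h.hul.lamNe _ (hpes.2 i)
  have hmem : ∀ i, w i ∈ Lo (β i) := fun i =>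
    (hLlim (β i)).2 id (fun m => x (φ m) i) (w i) strictMono_id (fun m => (hbx m).mem i) (hw i)
  refine ⟨φ, Lo, w, hφ, hw, hsum, hLlim, hNeq ▸ hNlim, hNeq ▸ hNdim, ?_⟩
  refine ⟨hpes, hmem, hcomp, ?_, ?_, ?_, ?_⟩
  · intro a ha
    have h1 := hLdim a 0
    rw [(hbx 0).bot a ha, finrank_bot] at h1
    exact Submodule.finrank_eq_zero.1 h1.symm
  · intro i hi z hz
    have h1 : Module.finrank ℝ (L (φ 0) (β i)) ≤ 1 := by
      have h2 : L (φ 0) (β i) ≤ Submodule.span ℝ {x (φ 0) i} := by
        intro v hv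
        obtain ⟨c, hc⟩ := (hbx 0).one i hi v hv
        exact Submodule.mem_span_singleton.2 ⟨c, hc.symm⟩
      have h3 := Submodule.finrank_mono h2
      have h4 : Module.finrank ℝ (Submodule.span ℝ {x (φ 0) i}) ≤ 1 :=
        (finrank_span_le_card ({x (φ 0) i} : Set (V n))).trans (by simp)
      exact h3.trans h4
    rw [hLdim (β i) 0] at h1
    have h5 : Submodule.span ℝ {w i} ≤ Lo (β i) :=
      (Submodule.span_singleton_le_iff_mem _ _).2 (hmem i)
    have h6 : Module.finrank ℝ (Lo (β i)) ≤ Module.finrank ℝ (Submodule.span ℝ {w i}) := by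
      rw [finrank_span_singleton (hwne i)]
      exact h1
    have h7 := Submodule.eq_of_le_of_finrank_le h5 h6
    rw [← h7] at hz
    obtain ⟨c, hc⟩ := Submodule.mem_span_singleton.1 hz
    exact ⟨c, hc.symm⟩
  · intro i j hij hb
    rw [← hLdim (β i) 0]
    exact (hbx 0).two i j hij hb
  · exact (hbx 0).three

end Pool.Agent.PFJ.H39
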