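import Pool.Agent.PFJ.Stmts

/-!
PFJ row NSF (MP_e54c4c_gt): facts on `NearS`.
-/

set_option autoImplicit false

open Matrix Filter Topology

namespace Pool.Agent.PFJ.H39

open Pool.Agent.PFS Pool.Agent.PFJ

theorem nsf : NsfStmt := by
  intro n C Γ h
  have hP : PCone C := h.toPCone
  refine ⟨?_, ?_, ?_, ?_, ?_⟩
  · intro M W p g hg t ht
    have key : ∀ z : V n, t • act g z ∈ closure C ↔ z ∈ closure C := fun z => h.sact_cl_iff hg ht
    constructor
    · rintro ⟨q, hq, h1, h2⟩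
      obtain ⟨y, hy, rfl⟩ := mem_img.1 hq
      refine ⟨t⁻¹ • y, W.smul_mem _ hy, ?_, ?_⟩
      · rw [← key, CC.act_sub, CC.act_smul, smul_sub, smul_smul, mul_inv_cancel₀ ht.ne', one_smul]
        exact h1
      · rw [← key, CC.act_sub, CC.act_smul, CC.act_smul, smul_sub, smul_smul t t⁻¹,
          mul_inv_cancel₀ ht.ne', one_smul, smul_comm t M]
        exact h2
    · rintro ⟨q, hq, h1, h2⟩
      refine ⟨t • act g q, Submodule.smul_mem _ _ (mem_img.2 ⟨q, hq, rfl⟩), ?_, ?_⟩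
      · rw [← key, CC.act_sub, smul_sub] at h1
        exact h1
      · rw [← key, CC.act_sub, CC.act_smul, smul_sub, smul_comm t M] at h2
        exact h2
  · rintro M W p p' ⟨q, hq, h1, h2⟩ h3 h4 hM
    refine ⟨(2 : ℝ) • q, W.smul_mem _ hq, ?_, ?_⟩
    · have e : (2 : ℝ) • q - p' = (2 : ℝ) • (q - p) + ((2 : ℝ) • p - p') := by
        rw [smul_sub]; abel
      rw [e]
      exact hP.cl_add (hP.cl_smul h1 (by norm_num)) h4
    · have e : (2 * M) • p' - (2 : ℝ) • q = (2 : ℝ) • (M • p - q) + (2 * M) • (p' - p) := by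
        rw [smul_sub, smul_sub, smul_smul]; abel
      rw [e]
      exact hP.cl_add (hP.cl_smul h2 (by norm_num)) (hP.cl_smul h3 (by positivity))
  · rintro M M' W p hM hp ⟨q, hq, h1, h2⟩
    refine ⟨q, hq, h1, ?_⟩
    have e : M' • p - q = (M • p - q) + (M' - M) • p := by
      rw [sub_smul]; abel
    rw [e]
    exact hP.cl_add h2 (hP.cl_smul hp (by linarith))
  · intro M W W' p p0 hW hp hlim hfr
    obtain ⟨φ, hφ, hN⟩ := Filter.extraction_of_frequently_atTop hfr
    choose q hq h1 h2 using hN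
    have hlimφ : Tendsto (fun m => p (φ m)) atTop (𝓝 p0) := hlim.comp hφ.tendsto_atTop
    have hqcl : ∀ m, q m ∈ closure C := fun m =>
      hP.cl_of_le (subset_closure (hp (φ m))) (h1 m)
    obtain ⟨B, hB, hnorm⟩ := hP.normal
    have hbd : ∃ R : ℝ, ∀ m, ‖q m‖ ≤ R := by
      obtain ⟨R, hR⟩ := (hlimφ.const_smul M).norm.bddAbove_range
      refine ⟨B * R, fun m => (hnorm _ _ (hqcl m) (h2 m)).trans ?_⟩
      exact mul_le_mul_of_nonneg_left (hR ⟨m, rfl⟩) hB.le
    obtain ⟨R, hR⟩ := hbd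
    obtain ⟨a, -, ψ, hψ, ha⟩ := tendsto_subseq_of_bounded
      (Metric.isBounded_closedBall (x := (0 : V n)) (r := R))
      (fun m => mem_closedBall_zero_iff.2 (hR m))
    have hlimψ : Tendsto (fun m => p (φ (ψ m))) atTop (𝓝 p0) := hlimφ.comp hψ.tendsto_atTop
    refine ⟨a, hW.2 (φ ∘ ψ) (q ∘ ψ) a (hφ.comp hψ) (fun m => hq (ψ m)) ha, ?_, ?_⟩
    · exact isClosed_closure.mem_of_tendsto (ha.sub hlimψ) (Eventually.of_forall fun m => h1 (ψ m))
    · exact isClosed_closure.mem_of_tendsto ((hlimψ.const_smul M).sub ha)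
        (Eventually.of_forall fun m => h2 (ψ m))
  · intro M W W' p p0 hW hp0 hp0W hlim hM
    obtain ⟨y, hy, hylim⟩ := hW.1 (((1 + M) / 2) • p0) (W'.smul_mem _ hp0W)
    have t1 : Tendsto (fun m => y m - p m) atTop (𝓝 (((1 + M) / 2) • p0 - p0)) := hylim.sub hlim
    have t2 : Tendsto (fun m => M • p m - y m) atTop (𝓝 (M • p0 - ((1 + M) / 2) • p0)) :=
      (hlim.const_smul M).sub hylim
    have m1 : ((1 + M) / 2) • p0 - p0 ∈ C := by
      have e : ((1 + M) / 2) • p0 - p0 = ((M - 1) / 2) • p0 := by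
        have : (M - 1) / 2 = (1 + M) / 2 - 1 := by ring
        rw [this, sub_smul, one_smul]
      rw [e]
      exact hP.smul _ hp0 _ (by linarith)
    have m2 : M • p0 - ((1 + M) / 2) • p0 ∈ C := by
      have e : M • p0 - ((1 + M) / 2) • p0 = ((M - 1) / 2) • p0 := by
        have : (M - 1) / 2 = M - (1 + M) / 2 := by ring
        rw [this, sub_smul]
      rw [e]
      exact hP.smul _ hp0 _ (by linarith)
    filter_upwards [t1.eventually (hP.isOpen.mem_nhds m1), t2.eventually (hP.isOpen.mem_nhds m2)]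
      with m a1 a2
    exact ⟨y m, hy m, subset_closure a1, subset_closure a2⟩

end Pool.Agent.PFJ.H39
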